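import Pool.Agent.Helper9.SK.St

/-!
# SK MODULE EER: sum of the maximal errors
-/

set_option autoImplicit false

noncomputable section

namespace Pool.Agent.Helper37.SK

open Pool.Agent.Helper9.SK
open Finset ArithmeticFunction MeasureTheory
open Pool.Agent.Helper60.GP (IsB II Err JJ)
open Pool.Agent.Helper15.AB (Th)

/-- The error only depends on the residue. -/
private theorem err_mod (ω : ℝ → ℝ) (x : ℝ) (d : ℕ) (b : ℤ) :
    Err ω x d (b % (d : ℤ)) = Err ω x d b := by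
  unfold Err
  have e : (II x).filter (fun n : ℕ => (d : ℤ) ∣ (n : ℤ) - b % (d : ℤ)) =
      (II x).filter (fun n : ℕ => (d : ℤ) ∣ (n : ℤ) - b) := by
    refine Finset.filter_congr (fun n _ => ?_)
    have h : (n : ℤ) - b % (d : ℤ) = (n - b) + d * (b / d) := by
      have := Int.emod_add_mul_ediv b d
      linarith
    rw [h]
    exact dvd_add_left (dvd_mul_right _ _)
  rw [e]

private theorem cop_mod (d : ℕ) (b : ℤ) (h : IsCoprime b (d : ℤ)) :
    IsCoprime (b % (d : ℤ)) (d : ℤ) := by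
  obtain ⟨u, v, huv⟩ := h
  refine ⟨u, v + u * (b / d), ?_⟩
  have := Int.emod_add_mul_ediv b d
  linear_combination huv + u * this

open Classical in
private theorem exists_max (ω : ℝ → ℝ) (x : ℝ) (d : ℕ) (hd : 1 ≤ d) : ∃ b : ℤ,
    IsCoprime b (d : ℤ) ∧ ∀ b' : ℤ, IsCoprime b' (d : ℤ) → Err ω x d b' ≤ Err ω x d b := by
  have hd0 : (0 : ℤ) < d := by exact_mod_cast hd
  let S : Finset ℤ := (Finset.Ico (0 : ℤ) (d : ℤ)).filter (fun b => IsCoprime b (d : ℤ))
  have hmem : ∀ b : ℤ, IsCoprime b (d : ℤ) → b % (d : ℤ) ∈ S := by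
    intro b hb
    refine Finset.mem_filter.2 ⟨Finset.mem_Ico.2 ⟨Int.emod_nonneg _ hd0.ne',
      Int.emod_lt_of_pos _ hd0⟩, cop_mod d b hb⟩
  obtain ⟨b, hbS, hb⟩ := Finset.exists_max_image S (fun b => Err ω x d b)
    ⟨_, hmem 1 isCoprime_one_left⟩
  refine ⟨b, (Finset.mem_filter.1 hbS).2, fun b' hb' => ?_⟩
  have h := hb _ (hmem b' hb')
  rwa [err_mod] at h

theorem hEER (hBVc : Pool.Agent.Helper60.GP.StBVc) : StEer := by
  intro ω hω A
  obtain ⟨x₀, hx₀⟩ := hBVc ω hω A (1 / 4) (by norm_num)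
  refine ⟨x₀, fun x hx => ?_⟩
  have hex : ∀ d : ℕ, ∃ b : ℤ, 1 ≤ d → IsCoprime b (d : ℤ) ∧
      ∀ b' : ℤ, IsCoprime b' (d : ℤ) → Err ω x d b' ≤ Err ω x d b := by
    intro d
    by_cases hd : 1 ≤ d
    · obtain ⟨b, hb⟩ := exists_max ω x d hd
      exact ⟨b, fun _ => hb⟩
    · exact ⟨0, fun h => absurd h hd⟩
  choose bb hbb using hex
  refine ⟨fun d => Err ω x d (bb d), fun d => abs_nonneg _,
    fun d hd b hb => (hbb d hd).2 b hb, ?_⟩
  exact hx₀ x hx bb (fun q hq => (hbb q hq).1)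

end Pool.Agent.Helper37.SK
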